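import Pool.Agent.Helper47.RR.B2

set_option autoImplicit false
set_option linter.style.haveILetI false

namespace Pool.Agent.Helper47.RR

open Pool.Agent.Helper16 Pool.Agent.Helper45.S4

variable {k L : Type} [Field k] [Field L] [Algebra k L]

theorem mul_mem_Ad (hN : IsFunctionField k L) (x : L) {α : Place k L → L} (hα : α ∈ Ad k L) :
    (fun v => x * α v) ∈ Ad k L := by
  refine ((const_mem_Ad hN x).union hα).subset ?_
  intro v hv
  by_contra hcon
  simp only [Set.mem_union, Set.mem_ofPred_eq, not_or, not_not] at hcon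
  apply hv
  change v.val (x * α v) ≤ 1
  rw [map_mul]
  exact mul_le_one' hcon.1 hcon.2

/-- multiplication of pre-adeles by a function -/
noncomputable def mulAd (hN : IsFunctionField k L) (x : L) : Ad k L →ₗ[k] Ad k L where
  toFun α := ⟨fun v => x * (α : Place k L → L) v, mul_mem_Ad hN x α.2⟩
  map_add' a b := Subtype.ext (funext fun v => mul_add _ _ _)
  map_smul' c a := Subtype.ext (funext fun v => mul_smul_comm _ _ _)

theorem mulAd_apply (hN : IsFunctionField k L) (x : L) (α : Ad k L) (v : Place k L) :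
    (mulAd hN x α : Place k L → L) v = x * (α : Place k L → L) v := rfl

/-- the action of functions on Weil differentials -/
noncomputable def act (hN : IsFunctionField k L) (x : L) (ω : Ad k L →ₗ[k] k) : Ad k L →ₗ[k] k :=
  ω.comp (mulAd hN x)

theorem act_apply (hN : IsFunctionField k L) (x : L) (ω : Ad k L →ₗ[k] k) (α : Ad k L) :
    act hN x ω α = ω (mulAd hN x α) := rfl

theorem act_one (hN : IsFunctionField k L) (ω : Ad k L →ₗ[k] k) : act hN 1 ω = ω := by
  ext α
  rw [act_apply]
  congr 1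
  exact Subtype.ext (funext fun v => one_mul _)

theorem act_mul (hN : IsFunctionField k L) (x y : L) (ω : Ad k L →ₗ[k] k) :
    act hN (x * y) ω = act hN x (act hN y ω) := by
  ext α
  rw [act_apply, act_apply, act_apply]
  congr 1
  refine Subtype.ext (funext fun v => ?_)
  rw [mulAd_apply, mulAd_apply, mulAd_apply]
  ring

theorem act_add (hN : IsFunctionField k L) (x y : L) (ω : Ad k L →ₗ[k] k) :
    act hN (x + y) ω = act hN x ω + act hN y ω := by
  ext α
  rw [LinearMap.add_apply, act_apply, act_apply, act_apply, ← map_add]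
  congr 1
  exact Subtype.ext (funext fun v => add_mul _ _ _)

theorem act_smul (hN : IsFunctionField k L) (c : k) (x : L) (ω : Ad k L →ₗ[k] k) :
    act hN (c • x) ω = c • act hN x ω := by
  ext α
  rw [LinearMap.smul_apply, act_apply, act_apply, ← map_smul]
  congr 1
  exact Subtype.ext (funext fun v => smul_mul_assoc _ _ _)

theorem act_zero_right (hN : IsFunctionField k L) (x : L) : act hN x 0 = 0 := rfl

theorem act_sub_right (hN : IsFunctionField k L) (x : L) (ω ω' : Ad k L →ₗ[k] k) :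
    act hN x (ω - ω') = act hN x ω - act hN x ω' := rfl

theorem act_eq_zero (hN : IsFunctionField k L) {x : L} (hx : x ≠ 0) {ω : Ad k L →ₗ[k] k}
    (h : act hN x ω = 0) : ω = 0 := by
  rw [← act_one hN ω, ← inv_mul_cancel₀ hx, act_mul, h, act_zero_right]

theorem act_mem_Om (hN : IsFunctionField k L) {x : L} (hx : x ≠ 0) {D : Dv k L}
    {ω : Ad k L →ₗ[k] k} (hω : ω ∈ Om D) : act hN x ω ∈ Om (D + prin hN x) := by
  refine ⟨fun α hα => hω.1 _ ?_, fun α y hα => hω.2 _ (x * y) fun v => ?_⟩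
  · intro v
    rw [mulAd_apply, map_mul]
    have h1 := hα v
    have h0 : v.val x ≠ 0 := by simpa using hx
    have h2 : v.val x = WithZero.exp (-(v.ord x)) := by
      rw [Place.ord, neg_neg, WithZero.exp_log h0]
    rw [Finsupp.add_apply, prin_apply] at h1
    calc v.val x * v.val ((α : Place k L → L) v)
        ≤ WithZero.exp (-(v.ord x)) * WithZero.exp (D v + v.ord x) := by
          rw [h2]; gcongr
      _ = WithZero.exp (D v) := by
          rw [← WithZero.exp_add]
          congr 1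
          ring
  · rw [mulAd_apply, hα v]

theorem act_mem_Om_iff (hN : IsFunctionField k L) {x : L} (hx : x ≠ 0) {D : Dv k L}
    {ω : Ad k L →ₗ[k] k} : act hN x ω ∈ Om D ↔ ω ∈ Om (D - prin hN x) := by
  constructor
  · intro h
    have h1 := act_mem_Om hN (inv_ne_zero hx) h
    rwa [← act_mul, inv_mul_cancel₀ hx, act_one, prin_inv, ← sub_eq_add_neg] at h1
  · intro h
    have h1 := act_mem_Om hN hx h
    rwa [sub_add_cancel] at h1

theorem act_mem_of_Lsp (hN : IsFunctionField k L) {D B : Dv k L} {ω : Ad k L →ₗ[k] k}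
    (hω : ω ∈ Om D) {x : L} (hx : x ∈ Lsp B) : act hN x ω ∈ Om (D - B) := by
  by_cases h0 : x = 0
  · subst h0
    have : act hN 0 ω = 0 := by
      have h := act_smul hN (0 : k) (1 : L) ω
      rwa [zero_smul, zero_smul] at h
    rw [this]
    exact zero_mem _
  · refine Om_anti ?_ (act_mem_Om hN h0 hω)
    rw [mem_Lsp_iff_prin hN B h0] at hx
    intro v
    have := hx v
    rw [Finsupp.zero_apply, Finsupp.add_apply] at this
    rw [Finsupp.sub_apply, Finsupp.add_apply]
    omega

/-- the action map `L(B) → Ω(D - B)` -/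
noncomputable def actMap (hN : IsFunctionField k L) {D : Dv k L} (B : Dv k L)
    {ω : Ad k L →ₗ[k] k} (hω : ω ∈ Om D) : Lsp B →ₗ[k] Om (D - B) where
  toFun x := ⟨act hN (x : L) ω, act_mem_of_Lsp hN hω x.2⟩
  map_add' x y := Subtype.ext (act_add hN _ _ _)
  map_smul' c x := Subtype.ext (act_smul hN _ _ _)

theorem actMap_injective (hN : IsFunctionField k L) {D : Dv k L} (B : Dv k L)
    {ω : Ad k L →ₗ[k] k} (hω : ω ∈ Om D) (h0 : ω ≠ 0) : Function.Injective (actMap hN B hω) := by
  rw [injective_iff_map_eq_zero]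
  intro x hx
  by_contra hne
  have h1 : (x : L) ≠ 0 := fun h => hne (Subtype.ext h)
  exact h0 (act_eq_zero hN h1 (congrArg Subtype.val hx))

theorem abstract_dim {V W U : Type} [AddCommGroup V] [Module k V] [AddCommGroup W] [Module k W]
    [AddCommGroup U] [Module k U] [FiniteDimensional k V] [FiniteDimensional k W]
    (P : Submodule k U) (hP : FiniteDimensional k P) (f : V →ₗ[k] P) (g : W →ₗ[k] P)
    (h : Module.finrank k P < Module.finrank k V + Module.finrank k W) :
    ∃ x : V, ∃ y : W, (x ≠ 0 ∨ y ≠ 0) ∧ f x = g y := by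
  let F : V × W →ₗ[k] P := f.coprod (-g)
  have h1 : ¬ Function.Injective F := by
    intro hinj
    have := LinearMap.finrank_le_finrank_of_injective hinj
    rw [Module.finrank_prod] at this
    omega
  rw [injective_iff_map_eq_zero] at h1
  push Not at h1
  obtain ⟨⟨x, y⟩, h2, h3⟩ := h1
  refine ⟨x, y, ?_, ?_⟩
  · by_contra hcon
    push Not at hcon
    exact h3 (Prod.ext hcon.1 hcon.2)
  · have h4 : f x + (-g) y = 0 := h2
    rw [LinearMap.neg_apply, ← sub_eq_add_neg, sub_eq_zero] at h4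
    exact h4

variable [IsAlgClosed k]

/-- The space of Weil differentials is one-dimensional over the function field. -/
theorem exists_act_eq (hN : IsFunctionField k L) {D D' : Dv k L} {ω ω' : Ad k L →ₗ[k] k}
    (hω : ω ∈ Om D) (hω' : ω' ∈ Om D') (h0 : ω ≠ 0) (h0' : ω' ≠ 0) :
    ∃ x : L, x ≠ 0 ∧ ω' = act hN x ω := by
  classical
  -- a common divisor
  have h1 : ω ∈ Om (D ⊓ D') := Om_anti inf_le_left hω
  have h2 : ω' ∈ Om (D ⊓ D') := Om_anti inf_le_right hω'
  set E := D ⊓ D'
  obtain ⟨v⟩ := exists_a_place hN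
  set g := genus k L with hg
  let n : ℤ := |3 * g - 2 - degD E| + |degD E| + 1
  let B : Dv k L := Finsupp.single v n
  have hB : degD B = n := degD_single v n
  have hn1 : 3 * g - 2 - degD E < n := by
    have := le_abs_self (3 * g - 2 - degD E)
    have := abs_nonneg (degD E)
    omega
  have hn2 : degD E < n := by
    have := le_abs_self (degD E)
    have := abs_nonneg (3 * g - 2 - degD E)
    omega
  have h3 : ell (E - B) = 0 := ell_eq_zero hN (by rw [degD_sub, hB]; omega)
  obtain ⟨hfin, h4⟩ := Om_formula hN (E - B)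
  haveI := hfin
  haveI := finite_Lsp hN B
  have h5 := riemann hN B
  have h6 : Module.finrank k (Om (E - B)) < Module.finrank k (Lsp B) + Module.finrank k (Lsp B) := by
    have h7 : ((Module.finrank k (Om (E - B)) : ℕ) : ℤ) <
        ((Module.finrank k (Lsp B) + Module.finrank k (Lsp B) : ℕ) : ℤ) := by
      rw [h4, h3, degD_sub, hB]
      push_cast
      change _ < ell B + ell B
      rw [hB] at h5
      omega
    exact_mod_cast h7
  obtain ⟨x, y, hxy, hfg⟩ := abstract_dim (Om (E - B)) hfin (actMap hN B h1)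
    (actMap hN B h2) h6
  have hfg' : act hN (x : L) ω = act hN (y : L) ω' := congrArg Subtype.val hfg
  have hy : (y : L) ≠ 0 := by
    intro hy0
    have hy1 : y = 0 := Subtype.ext hy0
    have hx1 : x ≠ 0 := by
      rcases hxy with h | h
      · exact h
      · exact absurd hy1 h
    apply hx1
    apply actMap_injective hN B h1 h0
    rw [hfg, hy1, map_zero, map_zero]
  have hx : (x : L) ≠ 0 := by
    intro hx0
    have hx1 : x = 0 := Subtype.ext hx0
    apply hy
    have : y = 0 := by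
      apply actMap_injective hN B h2 h0'
      rw [← hfg, hx1, map_zero, map_zero]
    rw [this]
    rfl
  refine ⟨(y : L)⁻¹ * x, mul_ne_zero (inv_ne_zero hy) hx, ?_⟩
  rw [act_mul, hfg', ← act_mul, inv_mul_cancel₀ hy, RR.act_one]

/-- Weil differentials bounded by a divisor of large degree vanish. -/
theorem exists_Om_eq_bot (hN : IsFunctionField k L) :
    ∃ c : ℤ, ∀ D : Dv k L, c ≤ degD D → Om D = ⊥ := by
  obtain ⟨c, hc⟩ := exists_ell_eq hN
  refine ⟨c, fun D hD => ?_⟩
  obtain ⟨hfin, h1⟩ := Om_formula hN D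
  rw [hc D hD] at h1
  have h2 : Module.finrank k (Om D) = 0 := by
    have : ((Module.finrank k (Om D) : ℕ) : ℤ) = 0 := by rw [h1]; ring
    exact_mod_cast this
  exact Submodule.finrank_eq_zero.1 h2

/-- `W` is the divisor of the Weil differential `ω`. -/
def IsDiv (ω : Ad k L →ₗ[k] k) (W : Dv k L) : Prop := ∀ D : Dv k L, ω ∈ Om D ↔ D ≤ W

theorem Om_sup {D E : Dv k L} {ω : Ad k L →ₗ[k] k} (h1 : ω ∈ Om D) (h2 : ω ∈ Om E) :
    ω ∈ Om (D ⊔ E) := by
  classical
  refine ⟨fun α hα => ?_, h1.2⟩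
  let β : Place k L → L := fun v => if E v ≤ D v then (α : Place k L → L) v else 0
  let γ : Place k L → L := fun v => if E v ≤ D v then 0 else (α : Place k L → L) v
  have hβ : β ∈ AdD D := by
    intro v
    simp only [β]
    split_ifs with h
    · have := hα v
      rwa [Finsupp.sup_apply, sup_eq_left.2 h] at this
    · rw [map_zero]; exact zero_le
  have hγ : γ ∈ AdD E := by
    intro v
    simp only [γ]
    split_ifs with h
    · rw [map_zero]; exact zero_le
    · have := hα v
      rwa [Finsupp.sup_apply, sup_eq_right.2 (le_of_not_ge h)] at this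
  have hsum : α = (⟨β, AdD_le_Ad D hβ⟩ : Ad k L) + ⟨γ, AdD_le_Ad E hγ⟩ := by
    refine Subtype.ext (funext fun v => ?_)
    change (α : Place k L → L) v = β v + γ v
    simp only [β, γ]
    split_ifs <;> simp
  rw [hsum, map_add, h1.1 _ hβ, h2.1 _ hγ, add_zero]

theorem exists_isDiv (hN : IsFunctionField k L) {D : Dv k L} {ω : Ad k L →ₗ[k] k}
    (hω : ω ∈ Om D) (h0 : ω ≠ 0) : ∃ W : Dv k L, IsDiv ω W := by
  classical
  obtain ⟨c, hc⟩ := exists_Om_eq_bot hN
  have hbound : ∀ E : Dv k L, ω ∈ Om E → degD E < c := by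
    intro E hE
    by_contra hcon
    rw [not_lt] at hcon
    rw [hc E hcon, Submodule.mem_bot] at hE
    exact h0 hE
  let S : Set ℤ := {n | ∃ E : Dv k L, ω ∈ Om E ∧ degD E = n}
  have hS : BddAbove S := ⟨c, by
    rintro _ ⟨E, hE, rfl⟩
    exact (hbound E hE).le⟩
  have hne : S.Nonempty := ⟨_, D, hω, rfl⟩
  obtain ⟨W, hW, hWd⟩ := Int.csSup_mem hne hS
  refine ⟨W, fun E => ⟨fun hE => ?_, fun hE => Om_anti hE hW⟩⟩
  have h1 := Om_sup hW hE
  have h2 : degD (W ⊔ E) ≤ degD W := by
    rw [hWd]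
    exact le_csSup hS ⟨_, h1, rfl⟩
  have h3 : W = W ⊔ E := eq_of_le_of_degD le_sup_left h2
  rw [h3]
  exact le_sup_right

/-- The duality theorem. -/
theorem finrank_Om_eq (hN : IsFunctionField k L) {W : Dv k L} {ω : Ad k L →ₗ[k] k}
    (h0 : ω ≠ 0) (hW : IsDiv ω W) (D : Dv k L) : (Module.finrank k (Om D) : ℤ) = ell (W - D) := by
  have hω : ω ∈ Om W := (hW W).2 le_rfl
  have hinj := actMap_injective hN (W - D) hω h0
  have hsurj : Function.Surjective (actMap hN (W - D) hω) := by
    rintro ⟨ω', hω'⟩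
    by_cases hz : ω' = 0
    · refine ⟨0, ?_⟩
      rw [map_zero]
      exact Subtype.ext hz.symm
    rw [sub_sub_cancel] at hω'
    obtain ⟨x, hx, hxω⟩ := exists_act_eq hN hω hω' h0 hz
    have h1 : x ∈ Lsp (W - D) := by
      rw [mem_Lsp_iff_prin hN _ hx]
      rw [hxω, act_mem_Om_iff hN hx, hW] at hω'
      intro v
      have := hω' v
      rw [Finsupp.sub_apply] at this
      rw [Finsupp.zero_apply, Finsupp.add_apply, Finsupp.sub_apply]
      omega
    exact ⟨⟨x, h1⟩, Subtype.ext hxω.symm⟩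
  have h1 := (LinearEquiv.ofBijective _ ⟨hinj, hsurj⟩).finrank_eq
  rw [sub_sub_cancel] at h1
  unfold ell
  rw [h1]

theorem exists_ne_zero_Om (hN : IsFunctionField k L) :
    ∃ (D : Dv k L) (ω : Ad k L →ₗ[k] k), ω ∈ Om D ∧ ω ≠ 0 := by
  obtain ⟨v⟩ := exists_a_place hN
  set g := genus k L
  let n : ℤ := |g| + 2
  let D : Dv k L := Finsupp.single v (-n)
  have hD : degD D = -n := degD_single v _
  obtain ⟨hfin, h1⟩ := Om_formula hN D
  have h2 := abs_nonneg g
  have h2' := neg_abs_le g
  have h3 := ell_nonneg D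
  have h4 : 0 < (Module.finrank k (Om D) : ℤ) := by
    rw [h1, hD]
    change 0 < ell D - (-(|g| + 2)) - 1 + g
    omega
  have h5 : 0 < Module.finrank k (Om D) := by exact_mod_cast h4
  have h6 : Om D ≠ ⊥ := by
    intro h
    rw [h, finrank_bot] at h5
    exact lt_irrefl _ h5
  obtain ⟨ω, hω, h0⟩ := (Submodule.ne_bot_iff _).1 h6
  exact ⟨D, ω, hω, h0⟩

/-- **The Riemann-Roch theorem.** -/
theorem riemannRoch_of_isDiv (hN : IsFunctionField k L) {W : Dv k L} {ω : Ad k L →ₗ[k] k}
    (h0 : ω ≠ 0) (hW : IsDiv ω W) (D : Dv k L) :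
    ell D = degD D + 1 - genus k L + ell (W - D) := by
  have h1 := (Om_formula hN D).2
  rw [finrank_Om_eq hN h0 hW D] at h1
  linarith

theorem ell_isDiv (hN : IsFunctionField k L) {W : Dv k L} {ω : Ad k L →ₗ[k] k}
    (h0 : ω ≠ 0) (hW : IsDiv ω W) : ell W = genus k L := by
  have h1 := riemannRoch_of_isDiv hN h0 hW 0
  rw [ell_zero hN, degD_zero, sub_zero] at h1
  linarith

theorem degD_isDiv (hN : IsFunctionField k L) {W : Dv k L} {ω : Ad k L →ₗ[k] k}
    (h0 : ω ≠ 0) (hW : IsDiv ω W) : degD W = 2 * genus k L - 2 := by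
  have h1 := riemannRoch_of_isDiv hN h0 hW W
  rw [sub_self, ell_zero hN, ell_isDiv hN h0 hW] at h1
  linarith

/-- **The Riemann-Roch theorem.** -/
theorem riemannRoch (hN : IsFunctionField k L) : ∃ W : Dv k L, degD W = 2 * genus k L - 2 ∧
    ell W = genus k L ∧ ∀ D : Dv k L, ell D = degD D + 1 - genus k L + ell (W - D) := by
  obtain ⟨D, ω, hω, h0⟩ := exists_ne_zero_Om hN
  obtain ⟨W, hW⟩ := exists_isDiv hN hω h0
  exact ⟨W, degD_isDiv hN h0 hW, ell_isDiv hN h0 hW, riemannRoch_of_isDiv hN h0 hW⟩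

/-- input for the Hurwitz inequality: a Weil differential with canonical divisor -/
theorem exists_canonical (hN : IsFunctionField k L) : ∃ (W : Dv k L) (ω : Ad k L →ₗ[k] k),
    ω ∈ Om W ∧ ω ≠ 0 ∧ degD W = 2 * genus k L - 2 := by
  obtain ⟨D, ω, hω, h0⟩ := exists_ne_zero_Om hN
  obtain ⟨W, hW⟩ := exists_isDiv hN hω h0
  exact ⟨W, ω, (hW W).2 le_rfl, h0, degD_isDiv hN h0 hW⟩

/-- input for the Hurwitz inequality -/
theorem degD_le_of_mem_Om (hN : IsFunctionField k L) {D : Dv k L} {ω : Ad k L →ₗ[k] k}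
    (hω : ω ∈ Om D) (h0 : ω ≠ 0) : degD D ≤ 2 * genus k L - 2 := by
  obtain ⟨W, hW⟩ := exists_isDiv hN hω h0
  rw [← degD_isDiv hN h0 hW]
  exact degD_mono ((hW D).1 hω)

/-- For degree `≥ 2g - 1` the dimension is the expected one. -/
theorem ell_eq_of_large (hN : IsFunctionField k L) (D : Dv k L) (hD : 2 * genus k L - 1 ≤ degD D) :
    ell D = degD D + 1 - genus k L := by
  obtain ⟨W, hW1, -, hW3⟩ := riemannRoch hN
  rw [hW3 D, ell_eq_zero hN (D := W - D) (by rw [degD_sub, hW1]; omega), add_zero]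

end Pool.Agent.Helper47.RR
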