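import Pool.Agent.Helper13.RR.A

set_option autoImplicit false
set_option linter.style.haveILetI false

namespace Pool.Agent.Helper47.RR

open Pool.Agent.Helper16 Pool.Agent.Helper45.S4

variable {k L : Type} [Field k] [Field L] [Algebra k L]

theorem AdD_le_Ad (D : Dv k L) : AdD D ≤ Ad k L := by
  intro α hα
  refine D.support.finite_toSet.subset ?_
  intro v hv
  by_contra hcon
  apply hv
  have h := hα v
  have h0 : D v = 0 := by simpa using hcon
  rwa [h0, WithZero.exp_zero] at h

theorem const_mem_Ad (hN : IsFunctionField k L) (x : L) : (fun _ : Place k L => x) ∈ Ad k L := by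
  obtain ⟨S, h1, -⟩ := hN.product_formula x
  refine S.finite_toSet.subset ?_
  intro v hv
  rw [Finset.mem_coe, h1]
  intro h0
  apply hv
  by_cases hx : x = 0
  · simp [hx]
  · exact (v.ord_nonneg_iff hx).1 h0.ge

/-- the diagonal embedding -/
noncomputable def diag (hN : IsFunctionField k L) (x : L) : Ad k L := ⟨fun _ => x, const_mem_Ad hN x⟩

theorem Om_anti {D D' : Dv k L} (h : D ≤ D') : Om D' ≤ Om D := by
  intro ω hω
  refine ⟨fun α hα => hω.1 α ?_, hω.2⟩
  intro v
  exact (hα v).trans (WithZero.exp_le_exp.2 (h v))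

theorem le_add_single (D : Dv k L) (v : Place k L) : D ≤ D + Finsupp.single v 1 := by
  classical
  intro w
  rw [Finsupp.add_apply, Finsupp.single_apply]
  split_ifs <;> omega

theorem abstract_step {V : Type} [AddCommGroup V] [Module k V] (P Q : Submodule k V) (hPQ : P ≤ Q)
    (hP : FiniteDimensional k P) (ev : V →ₗ[k] k) (h0 : ∀ x ∈ P, ev x = 0)
    (hker : ∀ x ∈ Q, ev x = 0 → x ∈ P) (hx : ∃ x ∈ Q, ev x ≠ 0) :
    FiniteDimensional k Q ∧ Module.finrank k Q = Module.finrank k P + 1 := by
  let e : Q →ₗ[k] k := ev.comp Q.subtype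
  have hk : LinearMap.ker e = P.comap Q.subtype := by
    ext x
    rw [LinearMap.mem_ker, Submodule.mem_comap]
    exact ⟨fun h => hker x x.2 h, fun h => h0 _ h⟩
  have hequiv : P.comap Q.subtype ≃ₗ[k] P := Submodule.comapSubtypeEquivOfLe hPQ
  haveI : FiniteDimensional k (LinearMap.ker e) := by
    rw [hk]
    exact hequiv.symm.finiteDimensional
  have hfinD : FiniteDimensional k Q := by
    haveI : FiniteDimensional k (LinearMap.range e) := inferInstance
    haveI : FiniteDimensional k (Q ⧸ LinearMap.ker e) := e.quotKerEquivRange.symm.finiteDimensional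
    exact Module.Finite.of_submodule_quotient (LinearMap.ker e)
  have hsurj : LinearMap.range e = ⊤ := by
    obtain ⟨x, hxQ, hx0⟩ := hx
    rw [LinearMap.range_eq_top]
    intro c
    refine ⟨(c / ev x) • ⟨x, hxQ⟩, ?_⟩
    rw [map_smul]
    change (c / ev x) * ev x = c
    exact div_mul_cancel₀ c hx0
  refine ⟨hfinD, ?_⟩
  have h8 := LinearMap.finrank_range_add_finrank_ker e
  rw [hsurj, finrank_top, Module.finrank_self, hk, hequiv.finrank_eq] at h8
  omega

section step

variable [IsAlgClosed k] (hN : IsFunctionField k L) (D : Dv k L) (v : Place k L)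

include hN

/-- the local generator -/
theorem exists_gen : ∃ α₀ : Ad k L, (α₀ : Place k L → L) ∈ AdD (D + Finsupp.single v 1) ∧
    ((α₀ : Place k L → L) ∉ AdD D) ∧
    ∀ α : Ad k L, (α : Place k L → L) ∈ AdD (D + Finsupp.single v 1) →
      ∃ c : k, ((α - c • α₀ : Ad k L) : Place k L → L) ∈ AdD D := by
  classical
  obtain ⟨π, hπ0, hπ⟩ := v.exists_uniformizer
  have hD : (D + Finsupp.single v 1 : Dv k L) v = D v + 1 := by simp
  have hDw : ∀ w, w ≠ v → (D + Finsupp.single v 1 : Dv k L) w = D w := by
    intro w hw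
    rw [Finsupp.add_apply, Finsupp.single_eq_of_ne hw, add_zero]
  have hval : v.val (π ^ (-(D v + 1))) = WithZero.exp (D v + 1) := by
    rw [map_zpow₀, hπ, ← WithZero.exp_zsmul]
    simp
  have hmem : (Pi.single v (π ^ (-(D v + 1))) : Place k L → L) ∈ AdD (D + Finsupp.single v 1) := by
    intro w
    by_cases hw : w = v
    · subst hw
      rw [Pi.single_eq_same, hval, hD]
    · rw [Pi.single_eq_of_ne hw, map_zero]
      exact zero_le
  refine ⟨⟨_, AdD_le_Ad _ hmem⟩, hmem, ?_, ?_⟩
  · intro h
    have h1 := h v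
    change v.val ((Pi.single v (π ^ (-(D v + 1))) : Place k L → L) v) ≤ _ at h1
    rw [Pi.single_eq_same, hval, WithZero.exp_le_exp] at h1
    omega
  · intro α hα
    have h1 := hα v
    rw [hD] at h1
    have h2 : v.val ((α : Place k L → L) v * π ^ (D v + 1)) ≤ 1 := by
      rw [map_mul, map_zpow₀, hπ, ← WithZero.exp_zsmul]
      calc v.val ((α : Place k L → L) v) * WithZero.exp ((D v + 1) • (-1 : ℤ)) ≤
          WithZero.exp (D v + 1) * WithZero.exp ((D v + 1) • (-1 : ℤ)) := by gcongr
        _ = 1 := by
          rw [← WithZero.exp_add]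
          simp
    obtain ⟨c, hc⟩ := exists_res_val hN v _ h2
    refine ⟨c, ?_⟩
    intro w
    by_cases hw : w = v
    · subst hw
      change w.val ((α : Place k L → L) w - c • (Pi.single w (π ^ (-(D w + 1))) : Place k L → L) w) ≤ _
      rw [Pi.single_eq_same]
      have h3 : (α : Place k L → L) w - c • π ^ (-(D w + 1)) =
          ((α : Place k L → L) w * π ^ (D w + 1) - algebraMap k L c) * π ^ (-(D w + 1)) := by
        rw [sub_mul, mul_assoc, ← zpow_add₀ hπ0, Algebra.smul_def]
        simp
      rw [h3, map_mul, hval]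
      by_cases h4 : w.val ((α : Place k L → L) w * π ^ (D w + 1) - algebraMap k L c) = 0
      · rw [h4, zero_mul]; exact zero_le
      · rw [← WithZero.exp_log h4, ← WithZero.exp_add, WithZero.exp_le_exp]
        rw [← WithZero.exp_log h4, ← WithZero.exp_zero, WithZero.exp_lt_exp] at hc
        omega
    · change w.val ((α : Place k L → L) w - c • (Pi.single v (π ^ (-(D v + 1))) : Place k L → L) w) ≤ _
      rw [Pi.single_eq_of_ne hw, smul_zero, sub_zero, ← hDw w hw]
      exact hα w

theorem Om_eq_of_mem (x : L) (hx : x ∈ Lsp (D + Finsupp.single v 1)) (hx' : x ∉ Lsp D) :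
    Om (D + Finsupp.single v 1) = Om D := by
  apply le_antisymm (Om_anti (le_add_single D v))
  intro ω hω
  obtain ⟨α₀, h1, h2, h3⟩ := exists_gen hN D v
  have hdx : ((diag hN x : Ad k L) : Place k L → L) ∈ AdD (D + Finsupp.single v 1) := by
    rw [mem_Lsp] at hx
    exact hx
  obtain ⟨c₀, hc₀⟩ := h3 _ hdx
  have hc0 : c₀ ≠ 0 := by
    rintro rfl
    apply hx'
    rw [zero_smul, sub_zero] at hc₀
    rw [mem_Lsp]
    exact hc₀
  have h4 : ω α₀ = 0 := by
    have h5 := hω.1 _ hc₀
    rw [map_sub, map_smul, hω.2 (diag hN x) x (fun _ => rfl), zero_sub, neg_eq_zero, smul_eq_mul] at h5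
    exact (mul_eq_zero.1 h5).resolve_left hc0
  refine ⟨fun α hα => ?_, hω.2⟩
  obtain ⟨c, hc⟩ := h3 α hα
  have h5 := hω.1 _ hc
  rwa [map_sub, map_smul, h4, smul_zero, sub_zero] at h5

/-- one step of the dimension formula -/
theorem step_formula (hfin : FiniteDimensional k (Om (D + Finsupp.single v 1))) :
    FiniteDimensional k (Om D) ∧
      (Module.finrank k (Om D) : ℤ) - ell D + degD D =
        (Module.finrank k (Om (D + Finsupp.single v 1)) : ℤ) - ell (D + Finsupp.single v 1) +
          degD (D + Finsupp.single v 1) := by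
  have hdeg : degD (D + Finsupp.single v 1) = degD D + 1 := by rw [degD_add, degD_single]
  haveI := finite_Lsp hN (D + Finsupp.single v 1)
  by_cases hcase : ∃ x ∈ Lsp (D + Finsupp.single v 1), x ∉ Lsp D
  · obtain ⟨x, hx, hx'⟩ := hcase
    have h1 := Om_eq_of_mem hN D v x hx hx'
    have h2 : ell (D + Finsupp.single v 1) = ell D + 1 := by
      apply le_antisymm (ell_add_single hN D v)
      have h3 : Lsp D < Lsp (D + Finsupp.single v 1) :=
        lt_of_le_of_ne (Lsp_mono (le_add_single D v)) (fun h => hx' (h ▸ hx))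
      have h4 := Submodule.finrank_lt_finrank_of_lt h3
      unfold ell
      exact_mod_cast h4
    rw [h1] at hfin
    refine ⟨hfin, ?_⟩
    rw [h1, h2, hdeg]
    ring
  · push Not at hcase
    have h1 : Lsp (D + Finsupp.single v 1) = Lsp D :=
      le_antisymm hcase (Lsp_mono (le_add_single D v))
    have h2 : ell (D + Finsupp.single v 1) = ell D := by unfold ell; rw [h1]
    obtain ⟨α₀, h3, h4, h5⟩ := exists_gen hN D v
    -- the subspace of pre-adeles
    let S : Submodule k (Ad k L) :=
      { carrier := {α | ∃ x : L, ((α - diag hN x : Ad k L) : Place k L → L) ∈ AdD D}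
        add_mem' := by
          rintro a b ⟨x, hx⟩ ⟨y, hy⟩
          refine ⟨x + y, ?_⟩
          have := (AdD D).add_mem hx hy
          convert this using 1
          ext w
          change (a : Place k L → L) w + (b : Place k L → L) w - (x + y) =
            ((a : Place k L → L) w - x) + ((b : Place k L → L) w - y)
          ring
        zero_mem' := ⟨0, by
          convert (AdD D).zero_mem using 1
          ext w
          change (0 : L) - 0 = 0
          ring⟩
        smul_mem' := by
          rintro c a ⟨x, hx⟩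
          refine ⟨c • x, ?_⟩
          have := (AdD D).smul_mem c hx
          convert this using 1
          ext w
          change c • (a : Place k L → L) w - c • x = c • ((a : Place k L → L) w - x)
          rw [smul_sub] }
    have hα₀S : α₀ ∉ S := by
      rintro ⟨x, hx⟩
      have h6 : x ∈ Lsp (D + Finsupp.single v 1) := by
        rw [mem_Lsp]
        intro w
        have h7 : x = (α₀ : Place k L → L) w - ((α₀ - diag hN x : Ad k L) : Place k L → L) w := by
          change x = (α₀ : Place k L → L) w - ((α₀ : Place k L → L) w - x)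
          ring
        rw [h7]
        exact (w.val.map_sub _ _).trans (max_le (h3 w) ((hx w).trans
          (WithZero.exp_le_exp.2 (le_add_single D v w))))
      rw [h1, mem_Lsp] at h6
      apply h4
      intro w
      have h7 : (α₀ : Place k L → L) w = ((α₀ - diag hN x : Ad k L) : Place k L → L) w + x := by
        change (α₀ : Place k L → L) w = ((α₀ : Place k L → L) w - x) + x
        ring
      rw [h7]
      exact (w.val.map_add _ _).trans (max_le (hx w) (h6 w))
    obtain ⟨ω₀, hω₀, hω₀S⟩ := Submodule.exists_dual_map_eq_bot_of_notMem hα₀S inferInstance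
    have hω₀S' : ∀ α ∈ S, ω₀ α = 0 := by
      intro α hα
      have : ω₀ α ∈ S.map ω₀ := Submodule.mem_map_of_mem hα
      rw [hω₀S] at this
      simpa using this
    have hω₀Om : ω₀ ∈ Om D := by
      refine ⟨fun α hα => hω₀S' α ⟨0, ?_⟩, fun α x hα => hω₀S' α ⟨x, ?_⟩⟩
      · convert hα using 1
        ext w
        change (α : Place k L → L) w - 0 = _
        rw [sub_zero]
      · convert (AdD D).zero_mem using 1
        ext w
        change (α : Place k L → L) w - x = 0
        rw [hα w, sub_self]
    have habs := abstract_step (Om (D + Finsupp.single v 1)) (Om D) (Om_anti (le_add_single D v)) hfin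
      ((LinearMap.applyₗ α₀ : (Ad k L →ₗ[k] k) →ₗ[k] k)) (fun ω hω => hω.1 α₀ h3)
      (fun ω hω h => ⟨fun α hα => by
        obtain ⟨c, hc⟩ := h5 α hα
        have h6 := hω.1 _ hc
        have h7 : ω α₀ = 0 := h
        rw [map_sub, map_smul, h7, smul_zero, sub_zero] at h6
        exact h6, hω.2⟩) ⟨ω₀, hω₀Om, hω₀⟩
    refine ⟨habs.1, ?_⟩
    rw [habs.2, h2, hdeg]
    push_cast
    ring

end step

end Pool.Agent.Helper47.RR
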