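import Pool.Agent.Helper47.RR.B1

set_option autoImplicit false
set_option linter.style.haveILetI false

namespace Pool.Agent.Helper47.RR

open Pool.Agent.Helper16 Pool.Agent.Helper45.S4

variable {k L : Type} [Field k] [Field L] [Algebra k L]

/-- induction along `D ≤ D'` -/
theorem le_induction {D D' : Dv k L} (h : D ≤ D') (P : Dv k L → Prop) (hbase : P D')
    (hstep : ∀ E : Dv k L, ∀ v : Place k L, D ≤ E → P (E + Finsupp.single v 1) → P E) : P D := by
  classical
  obtain ⟨F, rfl⟩ : ∃ F : Dv k L, D' = D + F := ⟨D' - D, by abel⟩
  have hF : 0 ≤ F := by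
    intro v
    have := h v
    rw [Finsupp.add_apply] at this
    rw [Finsupp.zero_apply]
    omega
  have key : ∀ n : ℕ, ∀ F : Dv k L, 0 ≤ F → degD F = n → P (D + F) → P D := by
    intro n
    induction n with
    | zero =>
      intro F hF hd hP
      have h0 : F = 0 := by
        ext v
        by_contra hv
        have h1 : ∀ w ∈ F.support, 0 ≤ F w := fun w _ => hF w
        have h2 := (Finset.sum_eq_zero_iff_of_nonneg h1).1 (by exact_mod_cast hd) v
          (Finsupp.mem_support_iff.2 hv)
        exact hv h2
      rwa [h0, add_zero] at hP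
    | succ n ih =>
      intro F hF hd hP
      have hne : F ≠ 0 := by
        rintro rfl
        simp [degD] at hd
        omega
      obtain ⟨v, hv⟩ := Finsupp.ne_iff.1 hne
      have hv1 : 1 ≤ F v := by
        have := hF v
        rw [Finsupp.zero_apply] at this hv
        omega
      have hF' : 0 ≤ F - Finsupp.single v 1 := by
        intro w
        rw [Finsupp.sub_apply, Finsupp.single_apply, Finsupp.zero_apply]
        have := hF w
        rw [Finsupp.zero_apply] at this
        split_ifs with hw
        · rw [← hw]; omega
        · omega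
      apply ih (F - Finsupp.single v 1) hF'
      · have h1 : degD F = degD (F - Finsupp.single v 1) + 1 := by
          conv_lhs => rw [← sub_add_cancel F (Finsupp.single v 1)]
          rw [degD_add, degD_single]
        rw [h1] at hd
        push_cast at hd
        omega
      · apply hstep (D + (F - Finsupp.single v 1)) v (by
          intro w
          rw [Finsupp.add_apply]
          have := hF' w
          rw [Finsupp.zero_apply] at this
          omega)
        rwa [add_assoc, sub_add_cancel]
  have hdnn : 0 ≤ degD F := Finset.sum_nonneg fun w _ => hF w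
  exact key (degD F).toNat F hF (by rw [Int.toNat_of_nonneg hdnn]) hbase

section

variable [IsAlgClosed k] (hN : IsFunctionField k L)

include hN

theorem degD_sub_ell_le (D : Dv k L) : degD D - ell D ≤ genus k L - 1 := by
  have := riemann hN D
  linarith

theorem exists_max : ∃ D : Dv k L, degD D - ell D = genus k L - 1 := by
  have h1 : (Set.range fun D : Dv k L => degD D - ell D).Nonempty := ⟨_, 0, rfl⟩
  obtain ⟨D, hD⟩ := Int.csSup_mem h1 (bddAbove_range hN)
  refine ⟨D, ?_⟩
  have hD' : degD D - ell D = sSup (Set.range fun D : Dv k L => degD D - ell D) := hD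
  rw [hD']
  unfold genus
  ring

/-- For `D` of maximal index, all Weil differentials bounded by `D` vanish. -/
theorem Om_eq_bot_of_max (D : Dv k L) (hD : degD D - ell D = genus k L - 1) : Om D = ⊥ := by
  classical
  have hstep : ∀ D' : Dv k L, D ≤ D' → Om D' = Om D := by
    intro D' h
    refine le_induction h (fun E => Om D' = Om E) rfl ?_
    intro E v hDE hE
    rw [hE]
    have h1 := sub_ell_mono hN hDE
    have h2 := degD_sub_ell_le hN (E + Finsupp.single v 1)
    rw [degD_add, degD_single] at h2
    have h3 : ell E < ell (E + Finsupp.single v 1) := by linarith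
    have h4 : ∃ x ∈ Lsp (E + Finsupp.single v 1), x ∉ Lsp E := by
      by_contra hcon
      push Not at hcon
      have h5 : Lsp (E + Finsupp.single v 1) = Lsp E :=
        le_antisymm hcon (Lsp_mono (le_add_single E v))
      unfold ell at h3
      rw [h5] at h3
      exact lt_irrefl _ h3
    obtain ⟨x, hx, hx'⟩ := h4
    exact Om_eq_of_mem hN E v x hx hx'
  rw [eq_bot_iff]
  intro ω hω
  rw [Submodule.mem_bot]
  ext α
  rw [LinearMap.zero_apply]
  -- a divisor bounding `α`
  have hfin : {v : Place k L | max (D v) (-v.ord ((α : Place k L → L) v)) ≠ 0 ∧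
      (α : Place k L → L) v ≠ 0 ∧ 0 ≤ -v.ord ((α : Place k L → L) v)}.Finite ∨ True := Or.inr trivial
  let f : Place k L → ℤ := fun v => max (D v) (if v.val ((α : Place k L → L) v) ≤ 1 then 0 else
    WithZero.log (v.val ((α : Place k L → L) v)))
  have hf : (Function.support f).Finite := by
    refine (D.support.finite_toSet.union α.2).subset ?_
    intro v hv
    by_contra hcon
    simp only [Set.mem_union, Finset.mem_coe, Finsupp.mem_support_iff, ne_eq, not_or, not_not,
      Set.mem_ofPred_eq] at hcon
    apply hv
    simp only [f]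
    have h2 : v.val ((α : Place k L → L) v) ≤ 1 := hcon.2
    rw [if_pos h2, hcon.1]
    simp
  let D' : Dv k L := Finsupp.ofSupportFinite f hf
  have hDD' : D ≤ D' := fun v => le_max_left _ _
  rw [← hstep D' hDD'] at hω
  apply hω.1
  intro v
  change v.val ((α : Place k L → L) v) ≤ WithZero.exp (f v)
  simp only [f]
  split_ifs with h1
  · refine h1.trans ?_
    rw [← WithZero.exp_zero, WithZero.exp_le_exp]
    exact le_max_right _ _
  · have h0 : v.val ((α : Place k L → L) v) ≠ 0 := by
      intro h2
      apply h1
      rw [h2]
      exact zero_le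
    conv_lhs => rw [← WithZero.exp_log h0]
    rw [WithZero.exp_le_exp]
    exact le_max_right _ _

/-- The dimension formula for Weil differentials. -/
theorem Om_formula (D : Dv k L) : FiniteDimensional k (Om D) ∧
    (Module.finrank k (Om D) : ℤ) = ell D - degD D - 1 + genus k L := by
  classical
  obtain ⟨D₀, hD₀⟩ := exists_max hN
  have h1 : D ≤ D ⊔ D₀ := le_sup_left
  have h2 : D₀ ≤ D ⊔ D₀ := le_sup_right
  have h3 : degD (D ⊔ D₀) - ell (D ⊔ D₀) = genus k L - 1 :=
    le_antisymm (degD_sub_ell_le hN _) (hD₀ ▸ sub_ell_mono hN h2)
  have h4 := Om_eq_bot_of_max hN _ h3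
  have h5 : FiniteDimensional k (Om D) ∧
      (Module.finrank k (Om D) : ℤ) - ell D + degD D = genus k L - 1 := by
    refine le_induction h1 (fun E => FiniteDimensional k (Om E) ∧
      (Module.finrank k (Om E) : ℤ) - ell E + degD E = genus k L - 1) ?_ ?_
    · rw [h4]
      refine ⟨inferInstance, ?_⟩
      rw [finrank_bot]
      push_cast
      linarith
    · intro E v _ hE
      obtain ⟨h6, h7⟩ := step_formula hN E v hE.1
      exact ⟨h6, h7.trans hE.2⟩
  exact ⟨h5.1, by linarith [h5.2]⟩

end

end Pool.Agent.Helper47.RR
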