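import Pool.Agent.Helper45.S4Gal

/-!
# Divisors, Riemann-Roch spaces, pre-adeles and Weil differentials of one-variable function fields
(over an algebraically closed field of constants)
-/

set_option autoImplicit false
set_option linter.style.haveILetI false

namespace Pool.Agent.Helper47.RR

open Pool.Agent.Helper16

/-- Divisors. -/
abbrev Dv (k L : Type) [Field k] [Field L] [Algebra k L] : Type := Place k L →₀ ℤ

variable {k L : Type} [Field k] [Field L] [Algebra k L]

/-- The degree of a divisor (all places are meant to have degree one). -/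
noncomputable def degD (D : Dv k L) : ℤ := D.sum fun _ n => n

/-- The Riemann-Roch space of a divisor. -/
def Lsp (D : Dv k L) : Submodule k L := ⨅ v : Place k L, v.filt (D v)

theorem mem_Lsp (D : Dv k L) (f : L) :
    f ∈ Lsp D ↔ ∀ v : Place k L, v.val f ≤ WithZero.exp (D v) := by
  unfold Lsp
  rw [Submodule.mem_iInf]
  rfl

/-- The divisor of a function (with `prin 0 = 0`). -/
noncomputable def prin (hN : IsFunctionField k L) (f : L) : Dv k L :=
  Finsupp.ofSupportFinite (fun v => v.ord f) (by
    obtain ⟨S, h1, -⟩ := hN.product_formula f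
    refine S.finite_toSet.subset ?_
    intro v hv
    exact (h1 v).2 hv)

/-- Pre-adeles (repartitions): families of functions, indexed by the places, almost all of them
regular at their place. -/
def Ad (k L : Type) [Field k] [Field L] [Algebra k L] : Submodule k (Place k L → L) where
  carrier := {α | {v : Place k L | ¬ v.val (α v) ≤ 1}.Finite}
  add_mem' := fun {a b} ha hb => (ha.union hb).subset (by
    intro v hv
    by_contra hcon
    simp only [Set.mem_union, Set.mem_ofPred_eq, not_or, not_not] at hcon
    exact hv ((v.val.map_add _ _).trans (max_le hcon.1 hcon.2)))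
  zero_mem' := by
    simp
  smul_mem' := fun c a ha => ha.subset (by
    intro v hv hcon
    apply hv
    change v.val (c • a v) ≤ 1
    rw [Algebra.smul_def, map_mul]
    exact mul_le_one' (v.val_algebraMap_le c) hcon)

/-- The pre-adeles bounded by a divisor. -/
def AdD (D : Dv k L) : Submodule k (Place k L → L) where
  carrier := {α | ∀ v : Place k L, v.val (α v) ≤ WithZero.exp (D v)}
  add_mem' := fun {_ _} ha hb v => (v.val.map_add _ _).trans (max_le (ha v) (hb v))
  zero_mem' := fun v => by simp
  smul_mem' := fun c a ha v => (v.filt (D v)).smul_mem c (ha v)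

theorem mem_AdD (D : Dv k L) (α : Place k L → L) :
    α ∈ AdD D ↔ ∀ v : Place k L, v.val (α v) ≤ WithZero.exp (D v) := Iff.rfl

/-- A weight on pre-adeles: `Om D` is the space of Weil differentials `ω` with `(ω) ≥ D`, i.e. the
space of `k`-linear forms on the pre-adeles which vanish on the pre-adeles bounded by `D` and on the
diagonal. -/
def Om (D : Dv k L) : Submodule k (Ad k L →ₗ[k] k) where
  carrier := {ω | (∀ α : Ad k L, (α : Place k L → L) ∈ AdD D → ω α = 0) ∧
    ∀ (α : Ad k L) (x : L), (∀ v, (α : Place k L → L) v = x) → ω α = 0}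
  add_mem' := fun {a b} ha hb => ⟨fun α hα => by
      rw [LinearMap.add_apply, ha.1 α hα, hb.1 α hα, add_zero],
    fun α x hα => by rw [LinearMap.add_apply, ha.2 α x hα, hb.2 α x hα, add_zero]⟩
  zero_mem' := ⟨fun _ _ => rfl, fun _ _ _ => rfl⟩
  smul_mem' := fun c a ha => ⟨fun α hα => by
      rw [LinearMap.smul_apply, ha.1 α hα, smul_zero],
    fun α x hα => by rw [LinearMap.smul_apply, ha.2 α x hα, smul_zero]⟩

/-- `ell D = dim L(D)`. -/
noncomputable def ell (D : Dv k L) : ℤ := Module.finrank k (Lsp D)

/-- The genus of the function field `L/k`. -/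
noncomputable def genus (k L : Type) [Field k] [Field L] [Algebra k L] : ℤ :=
  sSup (Set.range fun D : Dv k L => degD D - ell D) + 1

end Pool.Agent.Helper47.RR
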